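import Pool.Agent.helper35.Hz.Transfer

/-!
Problem MP_1b0330_gt: for every sufficiently large even genus there is no algorithm deciding whether two
factorizations of the identity of the mapping class group of the closed surface into positive Dehn twists
are Hurwitz equivalent, and none deciding whether they are equivalent up to Hurwitz moves and global
conjugation; this holds even when the second factorization is fixed.
-/

set_option autoImplicit false

namespace Pool.Agent.Results.MP_1b0330_gt.HurwitzUndecidable

open Pool.Agent.helper35.Map

theorem result : ∃ k₀ : ℕ, ∀ k ≥ k₀,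
    ¬ DecidablePairs (2 * k) (HurwitzEq (2 * k)) ∧
    ¬ DecidablePairs (2 * k) (HurwitzConjEq (2 * k)) ∧
    ∃ T : List (Word (2 * k)), IsFactorization (2 * k) T ∧
      ¬ DecidableFor (2 * k) (fun l => HurwitzEq (2 * k) l T) ∧
      ¬ DecidableFor (2 * k) (fun l => HurwitzConjEq (2 * k) l T) :=
  main

end Pool.Agent.Results.MP_1b0330_gt.HurwitzUndecidable
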